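import Pool.Agent.Q283.LS.All

/-!
# Project LS (helper283): the local conditions `AE e` form a group
-/

set_option autoImplicit false

namespace Pool.Agent.Q283.LS

open NumberField IsDedekindDomain Pool.Agent.Q283.LQ

variable {F : Type} [Field F] [NumberField F]

theorem lsq_mul' (v : HeightOneSpectrum (𝓞 F)) {a b : F} (ha : Lsq v a) (hb : Lsq v b) : Lsq v (a * b) :=
  (t_BAS F v).2.1 a b ha hb

theorem lsq_sq' (v : HeightOneSpectrum (𝓞 F)) {a : F} (ha : a ≠ 0) : Lsq v (a ^ 2) :=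
  (t_BAS F v).2.2.1 a ha

theorem lsq_ne' (v : HeightOneSpectrum (𝓞 F)) {a : F} (ha : Lsq v a) : a ≠ 0 := ((t_BAS F v).1 a ha).1

/-- `a b = c x²` up to local squares -/
theorem lsq_of (v : HeightOneSpectrum (𝓞 F)) {a b x c : F} (ha : Lsq v a) (hb : Lsq v b) (hx : x ≠ 0)
    (h : c * x ^ 2 = a * b) : Lsq v c := by
  have h1 := lsq_mul' v (lsq_mul' v ha hb) (lsq_sq' v (inv_ne_zero hx))
  have h2 : a * b * x⁻¹ ^ 2 = c := by
    rw [← h]
    field_simp
  rwa [h2] at h1

theorem ae_one (e : HeightOneSpectrum (𝓞 F) → F) (v : HeightOneSpectrum (𝓞 F)) (D : F) : AE e v D 1 := by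
  refine ⟨one_ne_zero, Or.inl ?_⟩
  have := lsq_sq' v (one_ne_zero (α := F))
  rwa [one_pow] at this

theorem ae_mul (e : HeightOneSpectrum (𝓞 F) → F) (v : HeightOneSpectrum (𝓞 F)) {D a b : F} (hD : D ≠ 0)
    (ha : AE e v D a) (hb : AE e v D b) : AE e v D (a * b) := by
  obtain ⟨ha0, ha⟩ := ha
  obtain ⟨hb0, hb⟩ := hb
  refine ⟨mul_ne_zero ha0 hb0, ?_⟩
  rcases ha with ha | ha | ⟨hDs, ha⟩
  · rcases hb with hb | hb | ⟨hDs, hb⟩
    · exact Or.inl (lsq_mul' v ha hb)
    · refine Or.inr (Or.inl ?_)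
      rw [mul_assoc]
      exact lsq_mul' v ha hb
    · refine Or.inr (Or.inr ⟨hDs, ?_⟩)
      rw [mul_assoc]
      exact lsq_mul' v ha hb
  · rcases hb with hb | hb | ⟨hDs, hb⟩
    · refine Or.inr (Or.inl ?_)
      have : a * b * D = (a * D) * b := by ring
      rw [this]
      exact lsq_mul' v ha hb
    · exact Or.inl (lsq_of v ha hb hD (by ring))
    · refine Or.inr (Or.inr ⟨hDs, ?_⟩)
      have h1 : Lsq v (a * D * (b * e v)) := lsq_mul' v ha hb
      exact lsq_of v h1 hDs hD (by ring)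
  · have he : e v ≠ 0 := by
      intro h
      rw [h, mul_zero] at ha
      exact lsq_ne' v ha rfl
    rcases hb with hb | hb | ⟨_, hb⟩
    · refine Or.inr (Or.inr ⟨hDs, ?_⟩)
      have : a * b * e v = (a * e v) * b := by ring
      rw [this]
      exact lsq_mul' v ha hb
    · refine Or.inr (Or.inr ⟨hDs, ?_⟩)
      have h1 : Lsq v (a * e v * (b * D)) := lsq_mul' v ha hb
      exact lsq_of v h1 hDs hD (by ring)
    · exact Or.inl (lsq_of v ha hb he (by ring))

end Pool.Agent.Q283.LS
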