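import Pool.Agent.Q283.LS.Stm

/-!
# Project LS (helper283): base fields, in particular the cyclotomic fields `ℚ(ζ)`, `ζ` of order `2^n`
-/

set_option autoImplicit false

namespace Pool.Agent.Q283.LS

open NumberField IsDedekindDomain Filter Topology Finset Pool.Agent.Q283.LQ

/-- `F` has only one prime above `2`, and every `a` which is a square at this prime and has even valuation at the
other primes is a square -/
structure Reg (F : Type) [Field F] [NumberField F] : Prop where
  one : ∀ v v' : HeightOneSpectrum (𝓞 F), Dy v → Dy v' → v = v'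
  sq : ∀ a : F, a ≠ 0 → (∀ v : HeightOneSpectrum (𝓞 F), ¬ Dy v → ¬ Od v a) →
    (∀ v : HeightOneSpectrum (𝓞 F), Dy v → Lsq v a) → IsSquare a

/-- JOB BF (uses `S_CON`, `S_SAT`, `S_KUM`, `S_LT`, `S_NT`). Schneider's conjecture at `2` for regular fields.
Proof.  `ρ = χ^r` on `H = F.fixingSubgroup`.  Suppose `RankSha S r F 1`: `f` in `InSha S ρ`, `(f)` independent
modulo coboundaries.  `f` is in `InSel ρ` (`l ∈ S`: `n = 1`; `l ∉ S`: `S_LT`).  `ρ` is a continuous homomorphism to the
units of `ℤ_2` and `ρ - 1` is not `0` (`S_NT`); let `2^h` be the largest power of `2` dividing all `ρ σ - 1`, `h ≥ 1`,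
`b0 = (ρ - 1) / 2^h`: a continuous cocycle, in `InSel ρ` (`n = 2^h`, `b = 1`), with an odd value.  `b0, f` are linearly
independent (`Ind`, multiply by `2^h`).  `S_SAT` (`t = 1`): `b1`, a cocycle in `InSel ρ`, such that `b0`, `b1`, `b0 + b1` have
odd values.  By `S_KUM` they belong to `a_0, a_1, a_2 ∈ F`; together with `a_3 = 1` they are four elements such that no
product of two different ones is a square (see the proof of `S_CRI`).  `S_CON` with `d = 1`, `x = 1` (`sgn 1 σ = 1`): all
satisfy `Cond (AE e) D a`, `D = (-1)^r`.  Outside `2` their valuations are even (`D` is a unit).  At the prime `v0` above `2`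
(there is exactly one) the condition `AE` allows only two classes modulo local squares: `1, D` if `D` is not a local
square, `1, e v0` otherwise; so two of the `a_i` have product a local square at `v0`, and this product is a square by
`Reg.sq`, a contradiction. -/
def S_BF : Prop := ∀ (Ω : Type) [Field Ω] [CharZero Ω] [IsAlgClosed Ω] [Algebra.IsAlgebraic ℚ Ω]
  (F : IntermediateField ℚ Ω) [NumberField F], Reg F →
  ∀ (S : Set ℕ) (r : ℕ), 2 ∈ S → 1 ≤ r → ¬ RankSha S r F 1

/-- JOB RQ1 (uses `S_BAS`). `ℚ` is regular.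
Proof.  `F ≅ ℚ`.  If all valuations of `a` outside `2` are even then `a` is, modulo squares, one of `1, -1, 2, -2`; and
`-1`, `2`, `-2` are not squares at the prime above `2` (`-x²`, with `v(x) = 1`, is `≡ -1` modulo `8`; `±2 x²` has odd
valuation). -/
def S_RQ1 : Prop := ∀ (F : Type) [Field F] [NumberField F], Module.finrank ℚ F = 1 → Reg F

/-- JOB RQ2. The prime above `2` does not split.
Proof.  Let `w ≠ w'` be primes of `L` above `2`; they lie above the same prime `v` of `F`, and `w' = σ w` for the
automorphism `σ` of `L/F` (the Galois group acts transitively), `|σ z|_(w') = |z|_w`.  Let `θ² = u`, `θ ∈ L`.  Choose `ξ ∈ L` with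
`ξ - θ` very small at `w` and `ξ + θ` very small at `w'` (chinese remainder theorem).  Then `σ ξ - θ = σ (ξ + θ)` is very small
at `w`, so `x = (ξ + σ ξ) / 2 ∈ F` is close to `θ` at `w`, `x²` is close to `u` at `w` and hence at `v`, and
`u x⁻²` is close to `1`: `Lsq v u`, a contradiction. -/
def S_RQ2 : Prop := ∀ (F L : Type) [Field F] [NumberField F] [Field L] [NumberField L] [Algebra F L] (u : F),
  Quad F L u → u ≠ 0 → (∀ v : HeightOneSpectrum (𝓞 F), Dy v → ¬ Lsq v u) →
  (∀ v v' : HeightOneSpectrum (𝓞 F), Dy v → Dy v' → v = v') →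
  ∀ w w' : HeightOneSpectrum (𝓞 L), Dy w → Dy w' → w = w'

/-- JOB RQ3 (uses `S_BAS`, `S_RQ2`). Regularity of quadratic extensions.
Proof.  `L = F(θ)`, `θ² = u`, `σ θ = - θ`; `u` is not a square in `F` (there is a prime above `2`).  `one` is `S_RQ2`.  `sq`: let
`a ∈ L` satisfy the conditions.  (1) `N(a) = a σ a ∈ F` has even valuation outside `2` (norms of primes), and is a square
at the prime `v` above `2`: if `a x²` is close to `1` at `w`, the only prime of `L` above `2`, then so is its conjugate,
hence also `N(a) N(x)²`.  By `Reg.sq`: `N(a) = b²`, `b ∈ F`.  (2) `a (a + σ a + 2 b) = (a + b)²`; choose the sign of `b` such that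
`a' = a + σ a + 2 b ∈ F` is not `0` (if both are `0` then `b = 0` and `a = 0`).  So `a a'` is a nonzero square in `L`.
(3) `a'` has even valuation at every prime `v` of `F` not above `2`: `L/F` is unramified at `v` (`u c²` is a unit at `v` for some
`c`; if `v = w²` in `L` then the residue fields are equal, `θ c ≡ c_0` modulo `w` with `c_0 ∈ F`, so also
`- θ c = σ(θ c) ≡ c_0`, so `2 θ c ∈ w`, impossible), so an odd valuation of `a'` at `v` is odd at every prime of `L` above `v`, but
`a` has even valuation there.  (4) `Lsq v a'` or `Lsq v (a' u)` at the prime `v` above `2`: `Lsq w a'` (`S_BAS`), say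
`a' ξ²` very close to `1`, `ξ = x + z θ`; then `a' (σ ξ)²` too (`w = σ w`), so `(ξ / σ ξ)²` is very close to `1`, so
`ξ / σ ξ` is close to `1` or `-1`.  In the first case `2 z θ = ξ - σ ξ` is small compared to `ξ` and `a' x²` is close to `1`, in the
second case `2 x` is small and `a' u z²` is close to `1`.  (5) So `a'` or `a' u` is a square in `F` (`Reg.sq`), and `a'` and `a` are
squares in `L`. -/
def S_RQ3 : Prop := ∀ (F L : Type) [Field F] [NumberField F] [Field L] [NumberField L] [Algebra F L] (u : F),
  Quad F L u → u ≠ 0 → (∀ v : HeightOneSpectrum (𝓞 F), ¬ Dy v → ¬ Od v u) →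
  (∀ v : HeightOneSpectrum (𝓞 F), Dy v → ¬ Lsq v u) → Reg F → Reg L

/-- JOB CY (uses `S_RQ1`, `S_RQ3`). The cyclotomic fields.
Proof.  Induction on `n`: `ℚ(ζ_1) = ℚ(ζ_2) = ℚ`, `ℚ(ζ_(2^(n+1))) = ℚ(ζ_(2^n))(√u)`, `u = ζ_(2^n)` a unit (`n ≥ 1`).  `u` is not a square at
the prime `v` above `2` of `F = ℚ(ζ)`, `ζ = ζ_(2^n)`: `n = 1`: `-1` is not a square in `ℚ_2`; in general: `F` has degree `2^(n-1)` and
`π = 1 - ζ` generates the only prime above `2`, `2 = π^(2^(n-1)) ·` unit, residue field `F_2`; if `ζ x²` is close to `1` then `x` is a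
unit at `v`, `x = 1 + π y` or modulo higher powers, `x² = 1 + 2 π y + π² y² ≡ 1` modulo `π²` and `ζ = 1 - π`, so
`ζ x² ≡ 1 - π` modulo `π²`, a contradiction (`n ≥ 2`; for `n = 1` work modulo `4`). -/
def S_CY : Prop := ∀ (n : ℕ) (F : Type) [Field F] [NumberField F], IsCyclotomicExtension {2 ^ n} ℚ F → Reg F

end Pool.Agent.Q283.LS
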