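import Pool.Agent.Q283.LS.Stm

/-!
# Project LS (helper283): the base field `ℚ`
-/

set_option autoImplicit false

namespace Pool.Agent.Q283.LS

open NumberField IsDedekindDomain Filter Topology Finset Pool.Agent.Q283.LQ

/-- JOB QQ (uses `S_CON`, `S_SAT`, `S_KUM`, `S_LT`, `S_NT`). Schneider's conjecture for `ℚ` and `p = 2`.
Proof.  `ρ = χ^r` on `H = ⊥.fixingSubgroup` (all automorphisms).  Suppose `RankSha S r ⊥ 1`: `f` in `InSha S ρ`, `(f)` independent
modulo coboundaries.  `f` is in `InSel ρ` (`l ∈ S`: `n = 1`; `l ∉ S`: `S_LT`).  `ρ` is a continuous homomorphism to the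
units of `ℤ_2` and `ρ - 1` is not `0` (`S_NT`); let `2^h` be the largest power of `2` dividing all `ρ σ - 1`, `h ≥ 1`,
`b0 = (ρ - 1) / 2^h`: a continuous cocycle, in `InSel ρ` (`n = 2^h`, `b = 1`), with an odd value.  `b0, f` are linearly
independent (`Ind`, multiply by `2^h`).  `S_SAT` (`t = 1`): `b1`, a cocycle in `InSel ρ`, such that `b0`, `b1`, `b0 + b1` have
odd values.  By `S_KUM` they belong to `a_0, a_1, a_2 ∈ ℚ` (as elements of `⊥`), not squares, and no product of two different
ones is a square (see the proof of `S_CRI`).  `S_CON` with `F = ⊥`, `d = 1`, `x = 1` (`sgn 1 σ = 1`): all three satisfy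
`Cond (AE e) ((-1)^r) a`.  The valuations of `a` at the odd primes are even (`even`, as `(-1)^r` is a unit), so the class of
`a` modulo squares is one of `1, -1, 2, -2`.  `r` even: `real` with `D = 1 > 0`: `a > 0`, so the class is `2` for all three,
contradiction.  `r` odd: `two` at the prime `2`: `Lsq v a` or `Lsq v (-a)` (`Lsq v (-1)` is false in `ℚ_2`: `-x² ≡ 1`
modulo `8` is impossible), so the valuation at `2` is even and the class is `-1` for all three, contradiction. -/
def S_QQ : Prop := ∀ (Ω : Type) [Field Ω] [CharZero Ω] [IsAlgClosed Ω] [Algebra.IsAlgebraic ℚ Ω]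
  (S : Set ℕ) (r : ℕ), 2 ∈ S → 1 ≤ r → ¬ RankSha S r (⊥ : IntermediateField ℚ Ω) 1

end Pool.Agent.Q283.LS
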