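import Pool.Agent.Q283.LS.Main
import Pool.Agent.Q285.LS.NT
import Pool.Agent.Q299.LS.TF
import Pool.Agent.Q285.LS.LA3
import Pool.Agent.Q166.LS.DES
import Pool.Agent.Q299.LS.SAT
import Pool.Agent.Q299.LS.KUM
import Pool.Agent.Q177.LS.UNR
import Pool.Agent.Q241.LS.LOE
import Pool.Agent.Q38.LS.LT
import Pool.Agent.Q38.LS.PLC
import Pool.Agent.Q150.LS.COR
import Pool.Agent.Q241.LS.ConM
import Pool.Agent.Q241.LS.CRI

/-!
# Project LS (helper283): assembly
-/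

set_option autoImplicit false

namespace Pool.Agent.Q283.LS

open Pool.Agent.Q283.LQ

theorem t_NT : S_NT := Pool.Agent.Q285.LS.nt

theorem t_LT : S_LT := Pool.Agent.Q38.LS.lt t_NT

theorem t_TF : S_TF := Pool.Agent.Q299.LS.tf t_NT

theorem t_COR : S_COR := Pool.Agent.Q150.LS.cor t_LT

theorem t_DES : S_DES := Pool.Agent.Q166.LS.des t_COR Pool.Agent.Q285.LS.la3

theorem t_SAT : S_SAT := Pool.Agent.Q299.LS.sat

theorem t_KUM : S_KUM := Pool.Agent.Q299.LS.kum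

theorem t_CON : S_CON := Pool.Agent.Q241.LS.con t_BAS Pool.Agent.Q38.LS.plc Pool.Agent.Q177.LS.unr

theorem t_CRI : S_CRI := Pool.Agent.Q241.LS.cri t_CON t_SAT t_KUM

theorem t_LOE : S_LOE := Pool.Agent.Q241.LS.loe t_BAS

theorem t_MAIN2 : S_MAIN2 := main2 t_DES t_CRI t_LOE

end Pool.Agent.Q283.LS
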