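import Pool.Agent.Q283.LQ.Def

/-!
# Project LS (helper283): Schneider's conjecture for quadratic extensions at the prime `2`, definitions

All number fields are subfields of an algebraic closure `Ω` of `ℚ`.  For a number field `K`, a set `S` of prime
numbers which contains `2` and `r ≥ 1` we consider the group `Ш¹(O_(K, S), Z_2(r))`, and its rank.
-/

set_option autoImplicit false

namespace Pool.Agent.Q283.LS

open NumberField IsDedekindDomain Pool.Agent.Q283.LQ

section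

variable {Ω : Type} [Field Ω] [CharZero Ω]

/-- the `2`-adic cyclotomic character -/
noncomputable def chi (σ : Ω ≃ₐ[ℚ] Ω) : ℤ_[2] := (cyclotomicCharacter Ω 2 (σ : Ω ≃+* Ω) : ℤ_[2])

open Classical in
/-- the character of the quadratic extension generated by `x`, `x²` in the base field -/
noncomputable def sgn (x : Ω) (σ : Ω ≃ₐ[ℚ] Ω) : ℤ_[2] := if σ x = x then 1 else -1

/-- `f` is a continuous cocycle on the group `H`, which acts on `ℤ_2` by the character `ρ` -/
structure IsCoc {H : Subgroup (Ω ≃ₐ[ℚ] Ω)} (ρ f : H → ℤ_[2]) : Prop where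
  cont : Continuous f
  coc : ∀ σ τ : H, f (σ * τ) = f σ + ρ σ * f τ

/-- `σ` belongs to the decomposition group of the place given by the embedding `j` -/
def Dec {l : ℕ} [Fact l.Prime] (j : Ω →+* PadicAlgCl l) (σ : Ω ≃ₐ[ℚ] Ω) : Prop :=
  ∃ τ : PadicAlgCl l ≃ₐ[ℚ_[l]] PadicAlgCl l, ∀ x, τ (j x) = j (σ x)

/-- `σ` belongs to the inertia group of the place given by the embedding `j` -/
def Inr {l : ℕ} [Fact l.Prime] (j : Ω →+* PadicAlgCl l) (σ : Ω ≃ₐ[ℚ] Ω) : Prop :=
  Dec j σ ∧ ∀ x, ‖j x‖ ≤ 1 → ‖j (σ x) - j x‖ < 1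

/-- `σ` is the complex conjugation belonging to the embedding `j` -/
def Cnj (j : Ω →+* ℂ) (σ : Ω ≃ₐ[ℚ] Ω) : Prop := ∀ x, j (σ x) = starRingEnd ℂ (j x)

/-- `f` is a cocycle of `Ш¹`: it is trivial on the inertia groups of all places not above the prime numbers of `S`
(so it is a cocycle of the Galois group of the maximal extension unramified outside `S` and infinity), and it is a
coboundary on the decomposition groups of the places above the prime numbers of `S` and of the real places -/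
structure InSha (S : Set ℕ) {H : Subgroup (Ω ≃ₐ[ℚ] Ω)} (ρ f : H → ℤ_[2]) : Prop where
  coc : IsCoc ρ f
  unr : ∀ (l : ℕ) [Fact l.Prime], l ∉ S → ∀ (j : Ω →+* PadicAlgCl l) (σ : H), Inr j σ → f σ = 0
  loc : ∀ (l : ℕ) [Fact l.Prime], l ∈ S → ∀ j : Ω →+* PadicAlgCl l, ∃ b : ℤ_[2], ∀ σ : H, Dec j σ →
    f σ = (ρ σ - 1) * b
  real : ∀ j : Ω →+* ℂ, ∃ b : ℤ_[2], ∀ σ : H, Cnj j σ → f σ = (ρ σ - 1) * b

/-- `f` is a cocycle whose restrictions to the decomposition groups of all finite places have finite order -/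
structure InSel {H : Subgroup (Ω ≃ₐ[ℚ] Ω)} (ρ f : H → ℤ_[2]) : Prop where
  coc : IsCoc ρ f
  tor : ∀ (l : ℕ) [Fact l.Prime] (j : Ω →+* PadicAlgCl l), ∃ n b : ℤ_[2], n ≠ 0 ∧ ∀ σ : H, Dec j σ →
    n * f σ = (ρ σ - 1) * b

/-- the cocycles `f i` are independent over `ℤ_2` modulo coboundaries -/
def Ind {H : Subgroup (Ω ≃ₐ[ℚ] Ω)} (ρ : H → ℤ_[2]) {t : ℕ} (f : Fin t → H → ℤ_[2]) : Prop :=
  ∀ a : Fin t → ℤ_[2], (∃ b : ℤ_[2], ∀ σ, ∑ i, a i * f i σ = (ρ σ - 1) * b) → a = 0

/-- the rank of `Ш¹(O_(K, S), Z_2(r))` is at least `t` -/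
def RankSha (S : Set ℕ) (r : ℕ) (K : IntermediateField ℚ Ω) (t : ℕ) : Prop :=
  ∃ f : Fin t → K.fixingSubgroup → ℤ_[2],
    (∀ i, InSha S (fun σ : K.fixingSubgroup => chi σ.1 ^ r) (f i)) ∧
    Ind (fun σ : K.fixingSubgroup => chi σ.1 ^ r) f

end

section

variable {F : Type} [Field F] [NumberField F]

/-- the local conditions above `2`: the class of `a` is `1` or `D`, or, if `D` is a square at `v`, it may also be the
class of the given number `e v` -/
def AE (e : HeightOneSpectrum (𝓞 F) → F) (v : HeightOneSpectrum (𝓞 F)) (D a : F) : Prop :=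
  a ≠ 0 ∧ (Lsq v a ∨ Lsq v (a * D) ∨ (Lsq v D ∧ Lsq v (a * e v)))

end

end Pool.Agent.Q283.LS
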