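import Pool.Agent.Q283.LS.Grp
import Pool.Agent.Q283.LQ.Imp2

/-!
# Project LS (helper283): the main theorem with the improved bounds
-/

set_option autoImplicit false

namespace Pool.Agent.Q283.LS

open NumberField IsDedekindDomain Filter Topology Finset Pool.Agent.Q283.LQ

theorem main2_min (Ω : Type) [Field Ω] [CharZero Ω] [IsAlgClosed Ω] [Algebra.IsAlgebraic ℚ Ω]
  (F : IntermediateField ℚ Ω) [NumberField F] : ∃ y0 : ℕ, ∀ y, y0 ≤ y →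
  ∀ (p : ℕ) (d0 : F), d0 ≠ 0 → ∀ ε : ℝ, 0 < ε → ∃ k0 : ℕ, ∀ k, k0 ≤ k → Nest k fun X =>
    (Box y X : Set (Fin k → HeightOneSpectrum (𝓞 F))).Finite ∧
    0 < ({q ∈ (Box y X : Set (Fin k → HeightOneSpectrum (𝓞 F))) | ∃ d, Fits y d0 q d}.ncard : ℝ) ∧
    ∀ t : ℕ, 1 ≤ t → ({q ∈ (Box y X : Set (Fin k → HeightOneSpectrum (𝓞 F))) | ∃ d, Fits y d0 q d ∧
          ∃ (r s : ℕ) (S : Set ℕ) (x : Ω), 1 ≤ r ∧ r % 2 = p % 2 ∧ 2 ∈ S ∧ x ^ 2 = (d : Ω) ∧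
            ¬ RankSha S r F (s + 1) ∧
            RankSha S r (F ⊔ IntermediateField.adjoin ℚ {x}) (s + t)}.ncard : ℝ) ≤
        (min (bdT (ex ((-1) ^ p * d0)) t) (bdO (ex ((-1) ^ p * d0))) + ε) *
          ({q ∈ (Box y X : Set (Fin k → HeightOneSpectrum (𝓞 F))) | ∃ d, Fits y d0 q d}.ncard : ℝ) := by
  obtain ⟨y0, hy0⟩ := share_min F
  obtain ⟨e, he⟩ := t_CRI Ω F
  refine ⟨y0, fun y hy p d0 hd0 ε hε => ?_⟩
  have hD0 : (-1 : F) ^ p * d0 ≠ 0 := mul_ne_zero (pow_ne_zero _ (neg_ne_zero.mpr one_ne_zero)) hd0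
  obtain ⟨k0, hk0⟩ := hy0 y hy (AE e) (t_LOE F e) ⟨fun v D _ _ => ae_one e v D,
    fun v D a b _ hD ha hb => ae_mul e v hD ha hb⟩ ((-1) ^ p * d0) hD0 ε hε
  refine ⟨max k0 1, fun k hk => nest_mono k _ _ (fun X hX => ?_) (hk0 k (le_trans (le_max_left _ _) hk))⟩
  have hk1 : 1 ≤ k := le_trans (le_max_right _ _) hk
  obtain ⟨hfin, hpos, hN⟩ := hX
  have hset : {q ∈ (Box y X : Set (Fin k → HeightOneSpectrum (𝓞 F))) | ∃ D, Fits y ((-1) ^ p * d0) q D} =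
      {q ∈ (Box y X : Set (Fin k → HeightOneSpectrum (𝓞 F))) | ∃ d, Fits y d0 q d} := by
    ext q
    simp only [Set.mem_ofPred_eq, fits_pow_iff]
  rw [hset] at hpos hN
  refine ⟨hfin, hpos, fun t ht => le_trans ?_ (hN t ht)⟩
  have h4 : {q ∈ (Box y X : Set (Fin k → HeightOneSpectrum (𝓞 F))) | ∃ d, Fits y d0 q d ∧
          ∃ (r s : ℕ) (S : Set ℕ) (x : Ω), 1 ≤ r ∧ r % 2 = p % 2 ∧ 2 ∈ S ∧ x ^ 2 = (d : Ω) ∧
            ¬ RankSha S r F (s + 1) ∧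
            RankSha S r (F ⊔ IntermediateField.adjoin ℚ {x}) (s + t)} ⊆
      {q ∈ (Box y X : Set (Fin k → HeightOneSpectrum (𝓞 F))) | ∃ D, Fits y ((-1) ^ p * d0) q D ∧
        Many (AE e) D (2 ^ t - 1)} := by
    rintro q ⟨hq, d, hd, r, s, S, x, hr, hrp, hS, hx, hF, hL⟩
    have hod : Od (q ⟨0, hk1⟩) d := (hd.ram _ (hq.2 ⟨0, hk1⟩).1).mpr ⟨_, rfl⟩
    have hnsq : ¬ IsSquare d := not_od_sq (q ⟨0, hk1⟩) hod
    have hfp := fits_pow p hd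
    have hnsq2 : ¬ IsSquare ((-1) ^ r * d) := by
      rw [neg_one_pow_mod hrp]
      exact not_od_sq (q ⟨0, hk1⟩) ((hfp.ram _ (hq.2 ⟨0, hk1⟩).1).mpr ⟨_, rfl⟩)
    obtain ⟨g, hg1, hg2⟩ := t_DES Ω F d x hx hnsq S r s t hS hr hF hL
    refine ⟨hq, (-1) ^ p * d, hfp, ?_⟩
    rw [← neg_one_pow_mod hrp]
    exact he r d x t g hr hx hnsq2 hg1 hg2
  exact_mod_cast Set.ncard_le_ncard h4 (hfin.subset (fun q hq => hq.1))

end Pool.Agent.Q283.LS
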