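import Pool.Agent.Q283.LS.Stm
import Pool.Agent.Q283.LQ.Uni

/-!
# Project LS (helper283): the main theorem from `S_DES`, `S_CRI`, `S_LOE`
-/

set_option autoImplicit false

namespace Pool.Agent.Q283.LS

open NumberField IsDedekindDomain Filter Topology Finset Pool.Agent.Q283.LQ

theorem neg_one_pow_mod {F : Type} [Field F] {r p : ℕ} (h : r % 2 = p % 2) : ((-1 : F)) ^ r = (-1) ^ p := by
  rw [← Nat.div_add_mod r 2, ← Nat.div_add_mod p 2, h, pow_add, pow_add, pow_mul, pow_mul]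
  simp

section

variable {F : Type} [Field F] [NumberField F]

theorem fits_pow {y : ℕ} {D0 : F} {k : ℕ} {q : Fin k → HeightOneSpectrum (𝓞 F)} {D : F} (p : ℕ)
    (h : Fits y D0 q D) : Fits y ((-1) ^ p * D0) q ((-1) ^ p * D) := by
  rcases neg_one_pow_eq_or F p with e | e
  · rw [e, one_mul, one_mul]
    exact h
  · rw [e, neg_one_mul, neg_one_mul]
    exact fits_neg h

theorem fits_pow_iff {y : ℕ} {D0 : F} {k : ℕ} {q : Fin k → HeightOneSpectrum (𝓞 F)} (p : ℕ) :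
    (∃ D, Fits y ((-1) ^ p * D0) q D) ↔ ∃ D, Fits y D0 q D := by
  have e : ∀ x : F, (-1) ^ p * ((-1) ^ p * x) = x := by
    intro x
    rw [← mul_assoc, ← pow_add, ← two_mul, pow_mul]
    simp
  constructor
  · rintro ⟨D, hD⟩
    refine ⟨(-1) ^ p * D, ?_⟩
    have := fits_pow p hD
    rwa [e] at this
  · rintro ⟨D, hD⟩
    exact ⟨_, fits_pow p hD⟩

end

theorem main2 (hdes : S_DES) (hcri : S_CRI) (hloe : S_LOE) : S_MAIN2 := by
  intro Ω _ _ _ _ F _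
  obtain ⟨y0, hy0⟩ := t_SHARE F
  obtain ⟨e, he⟩ := hcri Ω F
  refine ⟨y0, fun y hy p d0 hd0 ε hε => ?_⟩
  have hD0 : (-1 : F) ^ p * d0 ≠ 0 := mul_ne_zero (pow_ne_zero _ (neg_ne_zero.mpr one_ne_zero)) hd0
  obtain ⟨k0, hk0⟩ := hy0 y hy (AE e) (fun _ => 0) (hloe F e) ((-1) ^ p * d0) hD0 ε hε
  refine ⟨max k0 1, fun k hk => nest_mono k _ _ (fun X hX => ?_) (hk0 k (le_trans (le_max_left _ _) hk))⟩
  have hk1 : 1 ≤ k := le_trans (le_max_right _ _) hk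
  obtain ⟨hfin, hpos, hN⟩ := hX
  have hset : {q ∈ (Box y X : Set (Fin k → HeightOneSpectrum (𝓞 F))) | ∃ D, Fits y ((-1) ^ p * d0) q D} =
      {q ∈ (Box y X : Set (Fin k → HeightOneSpectrum (𝓞 F))) | ∃ d, Fits y d0 q d} := by
    ext q
    simp only [Set.mem_ofPred_eq, fits_pow_iff]
  rw [hset] at hpos
  refine ⟨hfin, hpos, fun t ht => ?_⟩
  have h1 : 1 ≤ 2 ^ t - 1 := by
    have : 2 ^ 1 ≤ 2 ^ t := Nat.pow_le_pow_right (by norm_num) ht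
    omega
  have h2 := hN (2 ^ t - 1) h1
  rw [hset] at h2
  simp only [finsum_zero, pow_zero, one_mul] at h2
  have h3 : ((2 ^ t - 1 : ℕ) : ℝ) = 2 ^ t - 1 := by
    rw [Nat.cast_sub (Nat.one_le_two_pow)]
    simp
  rw [h3] at h2
  refine le_trans ?_ h2
  have h4 : {q ∈ (Box y X : Set (Fin k → HeightOneSpectrum (𝓞 F))) | ∃ d, Fits y d0 q d ∧
          ∃ (r s : ℕ) (S : Set ℕ) (x : Ω), 1 ≤ r ∧ r % 2 = p % 2 ∧ 2 ∈ S ∧ x ^ 2 = (d : Ω) ∧
            ¬ RankSha S r F (s + 1) ∧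
            RankSha S r (F ⊔ IntermediateField.adjoin ℚ {x}) (s + t)} ⊆
      {q ∈ (Box y X : Set (Fin k → HeightOneSpectrum (𝓞 F))) | ∃ D, Fits y ((-1) ^ p * d0) q D ∧
        Many (AE e) D (2 ^ t - 1)} := by
    rintro q ⟨hq, d, hd, r, s, S, x, hr, hrp, hS, hx, hF, hL⟩
    have hod : Od (q ⟨0, hk1⟩) d := (hd.ram _ (hq.2 ⟨0, hk1⟩).1).mpr ⟨_, rfl⟩
    have hnsq : ¬ IsSquare d := not_od_sq (q ⟨0, hk1⟩) hod
    have hfp := fits_pow p hd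
    have hnsq2 : ¬ IsSquare ((-1) ^ r * d) := by
      rw [neg_one_pow_mod hrp]
      exact not_od_sq (q ⟨0, hk1⟩) ((hfp.ram _ (hq.2 ⟨0, hk1⟩).1).mpr ⟨_, rfl⟩)
    obtain ⟨g, hg1, hg2⟩ := hdes Ω F d x hx hnsq S r s t hS hr hF hL
    refine ⟨hq, (-1) ^ p * d, hfp, ?_⟩
    rw [← neg_one_pow_mod hrp]
    exact he r d x t g hr hx hnsq2 hg1 hg2
  exact_mod_cast Set.ncard_le_ncard h4 (hfin.subset (fun q hq => hq.1))

end Pool.Agent.Q283.LS
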