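import Pool.Agent.Q283.LS.Def

/-!
# Project LS (helper283): Schneider's conjecture for quadratic extensions at `2`, statements of the parts

GOAL (`S_MAIN2`).  `F` any number field.  Among the quadratic extensions `L = F(√d)` of the ensemble of project LQ the
share with rank `Ш¹(O_L, Z_2(r)) ≥` rank `Ш¹(O_F, Z_2(r)) + t` for SOME `r ≥ 1` of given parity is at most
`2^(-e) / (2^t - 1) + ε`, `e` = number of the complex places of `F` and of the real places with `(-1)^r d > 0`.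

PROOF.  `Ш¹` of `L` splits into `Ш¹` of `F` and the part with the twisted coefficients `ρ = χ^r · sgn` (`S_DES`).
Independent cocycles with values in the twisted module can be chosen independent modulo `2` (`S_SAT`), their
reductions modulo `2` are quadratic characters `a` (`S_KUM`), whose local behaviour is very restricted since `ρ`
takes values in `ℤ_2^*` (`S_CON`), the same conditions `Cond` as in project LQ with `D = (-1)^r d`; the
count is `S_SHARE` of project LQ.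

Notation: `H_K = K.fixingSubgroup`, `D_j` = the elements with `Dec j`, for an embedding `j : Ω → PadicAlgCl l`.
USEFUL: every `τ ∈ Aut(PadicAlgCl l / ℚ_l)` preserves the norm and maps `j(Ω)` (the algebraic numbers) to itself, so it
gives a `σ` with `Dec j σ`; if `τ` fixes `j(F)` then `σ ∈ H_F`.
-/

set_option autoImplicit false

namespace Pool.Agent.Q283.LS

open NumberField IsDedekindDomain Filter Topology Finset Pool.Agent.Q283.LQ

/-! ## Cocycles -/

/-- JOB NT. The cyclotomic character has infinite order on decomposition groups.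
Proof.  Suppose `χ(σ)^r = 1` for all `σ ∈ H_K ∩ D_j`; then `χ(σ) = ±1` (roots of unity of `ℤ_2`), so every such `σ` acts on the
roots of unity of `2`-power order by `ζ ↦ ζ^(±1)`.  Let `E = ℚ_l(j(K))`, finite over `ℚ_l`.  For every primitive `2^n`-th
root `ζ` the Galois group of `E(ζ)/E` has at most `2` elements (automorphisms extend to `PadicAlgCl l` and restrict to
`H_K ∩ D_j`), so `[E(ζ) : E] ≤ 2` for all `n`; all these fields lie in one extension of degree `≤ 2` (they form a chain).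
So a finite extension `M` of `ℚ_l` contains all roots of unity of `2`-power order.  The unit ball of `M` is compact
(finite-dimensional over `ℚ_l`), so there are two different such roots with `‖ζ - ζ'‖ < ‖2‖`, hence one `ζ'' ≠ 1` with
`‖ζ'' - 1‖ < ‖2‖`.  But `ζ''^(2^(k-1)) = -1` for some `k ≥ 1`, and `ζ''^m - 1 = (ζ'' - 1) (1 + ζ'' + ..)`, so
`‖2‖ = ‖ζ''^(2^(k-1)) - 1‖ ≤ ‖ζ'' - 1‖`, a contradiction. -/
def S_NT : Prop := ∀ (Ω : Type) [Field Ω] [CharZero Ω] [IsAlgClosed Ω] [Algebra.IsAlgebraic ℚ Ω]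
  (K : IntermediateField ℚ Ω) [NumberField K] (l : ℕ) [Fact l.Prime] (j : Ω →+* PadicAlgCl l) (r : ℕ), 1 ≤ r →
  ∃ σ ∈ K.fixingSubgroup, Dec j σ ∧ chi σ ^ r ≠ 1

/-- JOB LT (uses `S_NT`). Cocycles trivial on the inertia group have finite order on the decomposition group.
Proof.  `ρ = χ^r` is multiplicative.  For `σ, τ ∈ H_K ∩ D_j` the commutator `κ = σ τ σ⁻¹ τ⁻¹` is in the inertia group: `D_j`
acts on the residue field of `PadicAlgCl l`, which is algebraic over `F_l`, by automorphisms, and they commute (on a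
finite field `F_(l^m)` every automorphism is a power of the Frobenius map).  As `f κ = 0`, `ρ κ = 1`:
`f (σ τ) = f (κ τ σ) = f (τ σ)`, so `f σ + ρ σ f τ = f τ + ρ τ f σ`, i.e. `(ρ τ - 1) f σ = (ρ σ - 1) f τ`.  Choose `τ` with
`ρ τ ≠ 1` by `S_NT`: `n = ρ τ - 1`, `b = f τ`.
(Residue field, elementary: for `x` with `‖j x‖ ≤ 1` there is `m ≥ 1` with `‖j x ^ (l^m) - j x‖ < 1`.) -/
def S_LT : Prop := ∀ (Ω : Type) [Field Ω] [CharZero Ω] [IsAlgClosed Ω] [Algebra.IsAlgebraic ℚ Ω]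
  (K : IntermediateField ℚ Ω) [NumberField K] (l : ℕ) [Fact l.Prime] (j : Ω →+* PadicAlgCl l) (r : ℕ), 1 ≤ r →
  ∀ f : K.fixingSubgroup → ℤ_[2], IsCoc (fun σ : K.fixingSubgroup => chi σ.1 ^ r) f →
    (∀ σ : K.fixingSubgroup, Inr j σ.1 → f σ = 0) →
    ∃ n b : ℤ_[2], n ≠ 0 ∧ ∀ σ : K.fixingSubgroup, Dec j σ.1 → n * f σ = (chi σ.1 ^ r - 1) * b

/-- JOB TF (uses `S_NT`). The group `Ш¹(O_(K, S), Z_2(r))` vanishes if its rank is `0`.
Proof.  `ρ = χ^r`.  `←` clear (`a = 1`).  `→`: for `f` in the group the family `(f)` is not independent: `a ≠ 0`,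
`a f = (ρ - 1) b`.  Let `j : Ω → PadicAlgCl 2` be an embedding (it exists).  As `2 ∈ S`: `f σ = (ρ σ - 1) β` on
`H_K ∩ D_j`; by `S_NT` there is `σ` there with `ρ σ ≠ 1`, so `b = a β`, and `a f σ = a (ρ σ - 1) β` for all `σ`. -/
def S_TF : Prop := ∀ (Ω : Type) [Field Ω] [CharZero Ω] [IsAlgClosed Ω] [Algebra.IsAlgebraic ℚ Ω]
  (K : IntermediateField ℚ Ω) [NumberField K] (S : Set ℕ) (r : ℕ), 2 ∈ S → 1 ≤ r →
  (¬ RankSha S r K 1 ↔ ∀ f : K.fixingSubgroup → ℤ_[2], InSha S (fun σ : K.fixingSubgroup => chi σ.1 ^ r) f →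
    ∃ b : ℤ_[2], ∀ σ : K.fixingSubgroup, f σ = (chi σ.1 ^ r - 1) * b)

/-- JOB COR (uses `S_LT`). Corestriction from `L = F(x)` to `F`, with trivial and with quadratic twist.
Proof.  `G = H_F`, `H = H_L = {σ ∈ G | σ x = x}` (index `2`), `s ∈ G ∖ H` fixed (Galois theory).  For a character
`ρ : G → ℤ_2^*` equal to `χ^r` on `H` (`ρ = χ^r` or `ρ = χ^r sgn x`) put, with `s_1 = 1, s_2 = s`,
`g s_i = s_(g i) h_i(g)`, `h_i(g) ∈ H`:  `(C f)(g) = ∑_i ρ(s_(g i)) f(h_i(g))`.  Explicitly: `g ∈ H`: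
`f(g) + ρ(s) f(s⁻¹ g s)`; `g ∉ H`: `ρ(s) f(s⁻¹ g) + f(g s)`.  `C` is linear, maps cocycles to cocycles (continuity:
`H` is open and closed) and the coboundary `(ρ - 1) b` to `(ρ - 1) (1 + ρ(s)) b`; on `H` the sum of the two maps is `2 f`
since `sgn s = -1`.  For a cocycle `f` another choice `s' = s h` changes `C f` by the coboundary of
`ρ(s') f(h⁻¹)` up to sign.  Local conditions at `j` (`D = D_j`): (a) if `D ∩ G ⊆ H`: for `g ∈ D ∩ G`:
`(C f)(g) = f(g) + ρ(s) f(s⁻¹ g s)`, `s⁻¹ g s ∈ D_(j∘s) ∩ H`, and `ρ(s⁻¹ g s) = ρ(g)`: if `f` is a coboundary (or `n f`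
is one) on `D_j ∩ H` and on `D_(j∘s) ∩ H`, so is `C f` on `D ∩ G` (take the product of the two `n`).  (b) otherwise we may
take `s ∈ D`: all `h_i(g)` are in `D ∩ H`, and the formula shows that `C` of a coboundary is a coboundary.  Inertia
(`l ∉ S`, so `l ≠ 2` and `χ = 1` on inertia, since different roots of unity of `2`-power order have distance `1`): for `ρ = χ^r`: `f = 0` on all inertia groups in `H`; `C f` is a
homomorphism on `I_j ∩ G` to `ℤ_2`, zero on the subgroup `I_j ∩ H` of index `≤ 2`, so it is zero.  (The inertia group of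
`j∘s` is `s⁻¹ I_j s`.)  Real places: the group is `{1, c}`: same argument; in case (b) (`c x ≠ x`) take `s = c`.
For the twisted map the places not above `S` are treated by `S_LT` for `K = L`. -/
def S_COR : Prop := ∀ (Ω : Type) [Field Ω] [CharZero Ω] [IsAlgClosed Ω] [Algebra.IsAlgebraic ℚ Ω]
  (F : IntermediateField ℚ Ω) [NumberField F] (d : F) (x : Ω), x ^ 2 = (d : Ω) → ¬ IsSquare d →
  ∀ (S : Set ℕ) (r : ℕ), 2 ∈ S → 1 ≤ r →
  ∃ C C' : ((F ⊔ IntermediateField.adjoin ℚ {x}).fixingSubgroup → ℤ_[2]) →ₗ[ℤ_[2]] (F.fixingSubgroup → ℤ_[2]),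
    (∀ f, InSha S (fun σ : (F ⊔ IntermediateField.adjoin ℚ {x}).fixingSubgroup => chi σ.1 ^ r) f →
      InSha S (fun σ : F.fixingSubgroup => chi σ.1 ^ r) (C f) ∧
      InSel (fun σ : F.fixingSubgroup => chi σ.1 ^ r * sgn x σ.1) (C' f)) ∧
    (∀ b : ℤ_[2], ∃ b' : ℤ_[2],
      C (fun σ => (chi σ.1 ^ r - 1) * b) = fun σ : F.fixingSubgroup => (chi σ.1 ^ r - 1) * b') ∧
    (∀ (f : (F ⊔ IntermediateField.adjoin ℚ {x}).fixingSubgroup → ℤ_[2])
      (σ : (F ⊔ IntermediateField.adjoin ℚ {x}).fixingSubgroup) (τ : F.fixingSubgroup), τ.1 = σ.1 →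
      C f τ + C' f τ = 2 * f σ)

/-- JOB LA3. The rank of a kernel (only Mathlib).
Proof.  Restrict `φ` to the span `V` of the `a i` (free of rank `s + t`).  The image has rank `≤ s`, rank-nullity over the
domain `ℤ_2` (`LinearMap.rank_range_add_rank_ker`): the kernel has rank `≥ t`, so it has `t` independent elements. -/
def S_LA3 : Prop := ∀ (M N : Type) [AddCommGroup M] [Module ℤ_[2] M] [AddCommGroup N] [Module ℤ_[2] N]
  (φ : M →ₗ[ℤ_[2]] N) (s t : ℕ) (a : Fin (s + t) → M), LinearIndependent ℤ_[2] a →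
  (¬ ∃ x : Fin (s + 1) → M, (∀ i, x i ∈ Submodule.span ℤ_[2] (Set.range a)) ∧
    LinearIndependent ℤ_[2] fun i => φ (x i)) →
  ∃ b : Fin t → M, LinearIndependent ℤ_[2] b ∧ ∀ i, b i ∈ Submodule.span ℤ_[2] (Set.range a) ∧ φ (b i) = 0

/-- JOB DES (uses `S_COR`, `S_LA3`). Descent to `F`.
Proof.  `M = (H_L → ℤ_2) / (multiples of ρ - 1)`, `N = (H_F → ℤ_2) / (multiples of ρ - 1)`, `ρ = χ^r`; `C` induces
`φ : M → N`.  `f_1, .., f_(s+t)` from `RankSha S r L (s + t)`; combinations of elements of `InSha` are in `InSha` (for one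
`j` add the `b`), so `¬ RankSha S r F (s + 1)` gives the hypothesis of `S_LA3`: combinations `c_1, .., c_t` of the `f_i`,
independent modulo coboundaries, with `C c_i = (ρ - 1) b_i`.  `g_i = C' c_i`: if `∑ λ_i g_i = (ρ sgn - 1) b` on `H_F` then on
`H_L`: `∑ λ_i (2 c_i - (ρ - 1) b_i) = (ρ - 1) b`, so `2 λ_i = 0`. -/
def S_DES : Prop := ∀ (Ω : Type) [Field Ω] [CharZero Ω] [IsAlgClosed Ω] [Algebra.IsAlgebraic ℚ Ω]
  (F : IntermediateField ℚ Ω) [NumberField F] (d : F) (x : Ω), x ^ 2 = (d : Ω) → ¬ IsSquare d →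
  ∀ (S : Set ℕ) (r s t : ℕ), 2 ∈ S → 1 ≤ r → ¬ RankSha S r F (s + 1) →
  RankSha S r (F ⊔ IntermediateField.adjoin ℚ {x}) (s + t) →
  ∃ g : Fin t → F.fixingSubgroup → ℤ_[2],
    (∀ i, InSel (fun σ : F.fixingSubgroup => chi σ.1 ^ r * sgn x σ.1) (g i)) ∧
    Ind (fun σ : F.fixingSubgroup => chi σ.1 ^ r * sgn x σ.1) g

/-- JOB SAT. Saturation of a lattice of functions (only Mathlib).
Proof.  `W` = the module of the functions `w : X → ℤ_2` with `2^m w` in the span `V` of `b0` and the `c i`, for some `m`.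
There are `t + 1` points of `X` such that the restriction of `V` to them is injective (rank of a matrix: otherwise the
functions are dependent), hence also the restriction of `W`; so `W` is isomorphic to a submodule of `ℤ_2^(t+1)`, hence
free, of rank `t + 1`.  `W / 2W` has dimension `t + 1` over `F_2`; the class of `b0` is not `0` (if `b0 = 2 w` then all
values are even).  Extend it to a basis and lift: `b`.  If `e0 b0 + ∑ e_j b_j` has only even values then it is `2 w`,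
`w ∈ W`, so `e0 = 0`, `e = 0`.  One `m` for all `b j`. -/
def S_SAT : Prop := ∀ (X : Type) (t : ℕ) (b0 : X → ℤ_[2]) (c : Fin t → X → ℤ_[2]),
  LinearIndependent ℤ_[2] (Fin.cons (α := fun _ => X → ℤ_[2]) b0 c) → (∃ x, ¬ (2 : ℤ_[2]) ∣ b0 x) →
  ∃ (b : Fin t → X → ℤ_[2]) (m : ℕ),
    (∀ j, (2 : ℤ_[2]) ^ m • b j ∈ Submodule.span ℤ_[2] (insert b0 (Set.range c))) ∧
    ∀ (e0 : ZMod 2) (e : Fin t → ZMod 2), (∀ x, (2 : ℤ_[2]) ∣ (e0.val : ℤ_[2]) * b0 x +
      ∑ j, ((e j).val : ℤ_[2]) * b j x) → e0 = 0 ∧ e = 0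

/-! ## Quadratic characters -/

/-- JOB KUM. A homomorphism modulo `2` belongs to a square root.
Proof.  `N = {σ ∈ H_F | 2 ∣ f σ}` is an open and closed subgroup of `H_F` of index `≤ 2` (`f 1` is even).  Index `1`: `a = 1`,
`y = 1`.  Index `2`: the fixed field of (the image of) `N` in `Gal(Ω/F)` or in `Gal(Ω/ℚ)` is a quadratic extension of `F`
(infinite Galois theory: `N` is closed; `InfiniteGalois`), generated by a square root `y` of some `a ∈ F`, and `N` is its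
fixing group. -/
def S_KUM : Prop := ∀ (Ω : Type) [Field Ω] [CharZero Ω] [IsAlgClosed Ω] [Algebra.IsAlgebraic ℚ Ω]
  (F : IntermediateField ℚ Ω) [NumberField F] (f : F.fixingSubgroup → ℤ_[2]), Continuous f →
  (∀ σ τ, (2 : ℤ_[2]) ∣ f (σ * τ) - (f σ + f τ)) →
  ∃ (a : F) (y : Ω), a ≠ 0 ∧ y ^ 2 = (a : Ω) ∧ ∀ σ : F.fixingSubgroup, (2 : ℤ_[2]) ∣ f σ ↔ σ.1 y = y

/-- JOB PLC. The embedding belonging to a place.
Proof.  `l ∈ v`.  Existence of `j`: e.g. `Ω` has a valuation ring above `v`; or: the finitely many embeddings `F → PadicAlgCl l`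
give all the primes above `l` (a similar statement with proof may be in the library: search `PadicAlgCl` and
`HeightOneSpectrum`, e.g. `Pool/Agent/Q15/DI`, `Pool/Agent/W571`), extended to `Ω` (algebraic, `PadicAlgCl l` is
algebraically closed).  Then for `x ∈ F`: `v.valuation F x < 1 ↔ ‖j x‖ < 1`, which determines everything: for a
uniformizer `p` of `v`: `v.valuation F x < exp (-n) ↔ ‖j x‖ < ‖j p‖^n`.  Second part: let `E = ℚ_l(j(F))`.  Every automorphism `τ`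
of `PadicAlgCl l` over `E` restricts to some `σ ∈ H_F` with `Dec j σ`, so `τ (j y) = j (σ y) = j y`; by Galois theory
`j y ∈ E`.  `j(F)` is dense in `E` (`E` is the span of `j(F)` over `ℚ_l`, `ℚ` is dense in `ℚ_l`), so there are `u ∈ F` with
`‖j y - j u‖` arbitrarily small; then `a / u²` is arbitrarily close to `1`. -/
def S_PLC : Prop := ∀ (Ω : Type) [Field Ω] [CharZero Ω] [IsAlgClosed Ω] [Algebra.IsAlgebraic ℚ Ω]
  (F : IntermediateField ℚ Ω) [NumberField F] (v : HeightOneSpectrum (𝓞 F)) (l : ℕ) [Fact l.Prime],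
  (l : 𝓞 F) ∈ v.asIdeal → ∃ j : Ω →+* PadicAlgCl l,
    (∀ x : F, v.valuation F x < 1 ↔ ‖j (x : Ω)‖ < 1) ∧
    ∀ (a : F) (y : Ω), a ≠ 0 → y ^ 2 = (a : Ω) →
      (∀ σ ∈ F.fixingSubgroup, Dec j σ → σ y = y) → Lsq v a

/-- JOB UNR. Ramified and unramified square roots at an odd place.
Proof.  Replace `D` by `D u²` so that it is a unit at `v`.  Let `E = ℚ_l(j(F)) ⊆ PadicAlgCl l`.  The value group
`{‖z‖ | z ∈ E, z ≠ 0}` is equal to `{‖j x‖ | x ∈ F, x ≠ 0}` (`j(F)` is dense in `E`, the norm is nonarchimedean).  LEMMA: `l` odd,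
`E ⊆ PadicAlgCl l` a field containing `ℚ_l`, `u ∈ E`, `‖u‖ = 1`, `θ² = u`; then `E(θ)` has the same value group as `E`.
Proof: let `θ ∉ E`.  If there is `c ∈ E` with `‖u - c²‖ < 1`, say `‖θ - c‖ < 1` (replace `θ` by `-θ`; `‖2θ‖ = 1`), then every
automorphism `τ` over `E` satisfies `‖τ θ - c‖ = ‖θ - c‖ < 1`, so `τ θ ≠ -θ`, so `τ θ = θ`, and `θ ∈ E` by Galois theory,
contradiction.  So there is no such `c`.  For `z = α + β θ`: if `‖α‖ ≠ ‖β‖` then `‖z‖ = max`; if `‖α‖ = ‖β‖ ≠ 0` and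
`‖α/β + θ‖ < 1` then `c = - α/β` is a contradiction; so `‖z‖ = ‖β‖`.  Apply the lemma to the tower obtained by adjoining
`j z`, `ζ_4`, `ζ_8`, .. (each is a square root of the previous one): the field `M = E(j z, ζ)`, `ζ` of order `2^N`, has the value
group of `F`.  `‖j a‖` is not a square in this group (`Od v a`), so `j y ∉ M`; by Galois theory there is an automorphism
`τ` over `M` with `τ (j y) ≠ j y`; its restriction `σ` has all properties: `σ` fixes a primitive `2^N`-th root, so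
`χ(σ) ≡ 1` modulo `2^N` (`cyclotomicCharacter.spec`). -/
def S_UNR : Prop := ∀ (Ω : Type) [Field Ω] [CharZero Ω] [IsAlgClosed Ω] [Algebra.IsAlgebraic ℚ Ω]
  (F : IntermediateField ℚ Ω) [NumberField F] (v : HeightOneSpectrum (𝓞 F)) (l : ℕ) [Fact l.Prime], l ≠ 2 →
  ∀ j : Ω →+* PadicAlgCl l, (∀ x : F, v.valuation F x < 1 ↔ ‖j (x : Ω)‖ < 1) →
  ∀ (a D : F) (y z : Ω) (N : ℕ), a ≠ 0 → D ≠ 0 → Od v a → ¬ Od v D → y ^ 2 = (a : Ω) → z ^ 2 = (D : Ω) →
    ∃ σ ∈ F.fixingSubgroup, Dec j σ ∧ (2 : ℤ_[2]) ^ N ∣ chi σ - 1 ∧ σ z = z ∧ σ y ≠ y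

/-- JOB CON (uses `S_PLC`, `S_UNR`, `S_BAS` of project LQ). The local conditions.
Proof.  `ρ = χ^r sgn x`, `D = (-1)^r d`, `i ∈ Ω`, `i² = -1`, `z = i^r x`, so `z² = D`, and for `σ ∈ H_F`: `σ z = z` iff `4 ∣ ρ σ - 1`
(`σ i = i` iff `4 ∣ χ σ - 1`, otherwise `4 ∣ χ σ + 1`).  Let `v`, `l`, `j` be as in `S_PLC`, `Δ = H_F ∩ D_j`,
`n f σ = (ρ σ - 1) b` on `Δ`.  Write `n = 2^k ·` unit.  If `b = 0` or `2^k ∣ b` then `f σ` is even on `Δ` (`ρ σ` is a unit, so
`ρ σ - 1` is even), `σ y = y` on `Δ`, `Lsq v a`: case (α).  Otherwise case (β): `2^h f σ = (ρ σ - 1) u` on `Δ`, `h ≥ 1`, `u` a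
unit, so `σ y = y` iff `2^(h+1) ∣ ρ σ - 1`.  If `h = 1`: iff `σ z = z`, so `y z` is fixed by `Δ` (if both signs
change it is fixed too), `Lsq v (a D)`.  If `h ≥ 2`: `4 ∣ ρ σ - 1` on `Δ`, so `Lsq v D`.
EVEN and ODD (`v` not above `2`): if `Od v D` then `h ≥ 2` is impossible: `Lsq v a` or `Lsq v (a D)`.  If `¬ Od v D` and
`Od v a`: (α) is impossible; (β): `S_UNR` with `N = h + 1 ≥ 2` gives `σ ∈ Δ` with `χ σ ≡ 1` modulo `2^N`, `σ z = z`, so `σ i = i`,
`σ x = x`, `ρ σ = χ σ ^ r ≡ 1` modulo `2^(h+1)`, so `σ y = y`, a contradiction.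
TWO: suppose `¬ Lsq v a`, `¬ Lsq v (a D)`: case (β), `h ≥ 2`, `Lsq v D`.  Let `ψ σ = χ σ` if `4 ∣ χ σ - 1` and `- χ σ` otherwise:
`4 ∣ ψ σ - 1`, and on `Δ` `ρ σ = ψ σ ^ r` (they agree up to sign and modulo `4`).  If `r = 2^k r'`, `r'` odd, then the
exponent of `2` in `ψ^r - 1` is that of `ψ - 1` plus `k`.  Since `¬ Lsq v a` there is `σ ∈ Δ` with `f σ` odd, so
`h ≥ 2 + k`; `m = h - k`: for `σ ∈ Δ`: `2^m ∣ ψ σ - 1`, and `σ y = y` iff `2^(m+1) ∣ ψ σ - 1`, and some `σ ∈ Δ` has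
`¬ 2^(m+1) ∣ ψ σ - 1`.  Call this property `Q v a` (with the `j` chosen for `v`).  `m` is the same for all `a` with
`Q v a`, so `Q v a`, `Q v a'` imply `Lsq v (a a')` (`y y'` is fixed by `Δ`).  Define `e v` as some `a ∈ F` with `Q v a` if there
is one, and `1` otherwise.
REAL: `φ : F → ℝ`, `φ(D) > 0`.  Extend `φ` to `j : Ω → ℂ`; complex conjugation gives `c ∈ H_F`, `j (c x) = conj (j x)`, `c ≠ 1`,
`c² = 1`.  `j(z)² > 0` so `c z = z`, `4 ∣ ρ c - 1`, and `ρ(c)² = 1`, so `ρ c = 1`; `0 = f(1) = f(c²) = 2 f(c)`, so `c y = y`, `j(y)` is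
real, `φ(a) = j(y)² > 0`. -/
def S_CON : Prop := ∀ (Ω : Type) [Field Ω] [CharZero Ω] [IsAlgClosed Ω] [Algebra.IsAlgebraic ℚ Ω]
  (F : IntermediateField ℚ Ω) [NumberField F], ∃ e : HeightOneSpectrum (𝓞 F) → F,
  ∀ (r : ℕ) (d : F) (x : Ω), 1 ≤ r → d ≠ 0 → x ^ 2 = (d : Ω) →
  ∀ f : F.fixingSubgroup → ℤ_[2], InSel (fun σ : F.fixingSubgroup => chi σ.1 ^ r * sgn x σ.1) f →
  ∀ (a : F) (y : Ω), a ≠ 0 → y ^ 2 = (a : Ω) → (∀ σ : F.fixingSubgroup, (2 : ℤ_[2]) ∣ f σ ↔ σ.1 y = y) →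
    Cond (AE e) ((-1) ^ r * d) a

/-- JOB CRI (uses `S_CON`, `S_SAT`, `S_KUM`). The criterion.
Proof.  `e` from `S_CON`; `ρ = χ^r sgn x`, `D = (-1)^r d`.  `ρ` is a continuous homomorphism to the units, so `ρ σ - 1` is
even; `b0 = (ρ - 1) / 2`; `b0 σ` is even iff `σ z = z`, `z = i^r x`, `z² = D`; as `D` is not a square, `b0` has an odd value.
`b0, g_1, .., g_t` are linearly independent (`Ind`; multiply by `2`).  `S_SAT` (`X = H_F`): `b_1, .., b_t`.  `2^m b_j` is a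
combination, so `b_j` is a cocycle, continuous (multiplication by `2^m` on `ℤ_2` is a homeomorphism onto its image),
and in `InSel` (`b0` is in `InSel` with `n = 2`).  For `c ∈ F_2^t`, `c ≠ 0`: `f_c = ∑ c_j b_j` is in `InSel`; `S_KUM` (modulo `2`
cocycles are homomorphisms): `a_c`, `y_c`; `S_CON`: `Cond`.  If `a_c` is a square then `y_c ∈ F`, `f_c` is even everywhere,
contradiction; if `a_c D` is a square then `y_c z ∈ F`: `σ y_c = y_c` iff `σ z = z`, so `b0 + f_c` is even everywhere,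
contradiction.  `c ≠ c'`: the same with `y_c y_(c')` and `f_c + f_(c')`, which is `f_(c+c')` modulo `2`. -/
def S_CRI : Prop := ∀ (Ω : Type) [Field Ω] [CharZero Ω] [IsAlgClosed Ω] [Algebra.IsAlgebraic ℚ Ω]
  (F : IntermediateField ℚ Ω) [NumberField F], ∃ e : HeightOneSpectrum (𝓞 F) → F,
  ∀ (r : ℕ) (d : F) (x : Ω) (t : ℕ) (g : Fin t → F.fixingSubgroup → ℤ_[2]), 1 ≤ r → x ^ 2 = (d : Ω) →
  ¬ IsSquare ((-1) ^ r * d) →
  (∀ i, InSel (fun σ : F.fixingSubgroup => chi σ.1 ^ r * sgn x σ.1) (g i)) →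
  Ind (fun σ : F.fixingSubgroup => chi σ.1 ^ r * sgn x σ.1) g →
  Many (AE e) ((-1) ^ r * d) (2 ^ t - 1)

/-- JOB LOE (uses `S_BAS` of project LQ). The conditions `AE e` have the properties of `Loc`.
Proof.  All from the properties of `Lsq` in `S_BAS`.  `num`: if `D` is not a square at `v` then every `b ∈ B` is in the class
of `1` or of `D`, otherwise in the class of `1` or of `e v`. -/
def S_LOE : Prop := ∀ (F : Type) [Field F] [NumberField F] (e : HeightOneSpectrum (𝓞 F) → F),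
  Loc (AE e) (fun _ => 0)

/-- the main theorem -/
def S_MAIN2 : Prop := ∀ (Ω : Type) [Field Ω] [CharZero Ω] [IsAlgClosed Ω] [Algebra.IsAlgebraic ℚ Ω]
  (F : IntermediateField ℚ Ω) [NumberField F], ∃ y0 : ℕ, ∀ y, y0 ≤ y →
  ∀ (p : ℕ) (d0 : F), d0 ≠ 0 → ∀ ε : ℝ, 0 < ε → ∃ k0 : ℕ, ∀ k, k0 ≤ k → Nest k fun X =>
    (Box y X : Set (Fin k → HeightOneSpectrum (𝓞 F))).Finite ∧
    0 < ({q ∈ (Box y X : Set (Fin k → HeightOneSpectrum (𝓞 F))) | ∃ d, Fits y d0 q d}.ncard : ℝ) ∧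
    ∀ t : ℕ, 1 ≤ t →
      ({q ∈ (Box y X : Set (Fin k → HeightOneSpectrum (𝓞 F))) | ∃ d, Fits y d0 q d ∧
          ∃ (r s : ℕ) (S : Set ℕ) (x : Ω), 1 ≤ r ∧ r % 2 = p % 2 ∧ 2 ∈ S ∧ x ^ 2 = (d : Ω) ∧
            ¬ RankSha S r F (s + 1) ∧
            RankSha S r (F ⊔ IntermediateField.adjoin ℚ {x}) (s + t)}.ncard : ℝ) ≤
        ((1 / 2 : ℝ) ^ ex ((-1) ^ p * d0) / (2 ^ t - 1) + ε) *
          ({q ∈ (Box y X : Set (Fin k → HeightOneSpectrum (𝓞 F))) | ∃ d, Fits y d0 q d}.ncard : ℝ)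

end Pool.Agent.Q283.LS
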